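import Pool.Agent.MWI.StmtsE

/-!
Squad MWI (problem MP_23468a_al), row FC1: the facts about the words in `SS`, without `nc`.
-/

set_option autoImplicit false

namespace Pool.Agent.MWI.H92

open Pool.Agent.Helper14_MV Pool.Agent.Helper2_MV Pool.Agent.MWF

theorem pj_mod {j k c x : ℕ} (h : x ∈ pj j k c) : x % 3 = c % 3 := by
  unfold pj at h
  split_ifs at h with h1 h2 h3
  · rw [List.mem_singleton] at h
    omega
  · simp at h
  · rw [List.mem_singleton] at h
    omega
  · simp at h

theorem cnt0 (j k : ℕ) (L : List ℕ) : (L.flatMap (pj j k)).count 0 = L.count (3 * j) := by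
  induction L with
  | nil => rfl
  | cons c L ih =>
    rw [List.flatMap_cons, List.count_append, ih, List.count_cons]
    have h : (pj j k c).count 0 = if c = 3 * j then 1 else 0 := by
      unfold pj
      by_cases h1 : c % 3 = 0
      · rw [if_pos h1]
        by_cases h2 : c = 3 * j
        · rw [if_pos h2, if_pos h2]
          simp
        · rw [if_neg h2, if_neg h2]
          simp
      · rw [if_neg h1]
        have h2 : c ≠ 3 * j := by omega
        rw [if_neg h2]
        by_cases h3 : c / 3 % 7 = k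
        · rw [if_pos h3, List.count_eq_zero, List.mem_singleton]
          omega
        · rw [if_neg h3]
          simp
    rw [h]
    by_cases h2 : c = 3 * j
    · simp [h2, add_comm]
    · simp [h2]

theorem cut {x : ℕ} : ∀ {A A' B B' : List ℕ}, x ∉ A → x ∉ A' → A ++ x :: B = A' ++ x :: B' →
    A = A' ∧ B = B'
  | [], [], B, B', _, _, h => by simpa using h
  | [], a :: A', B, B', _, h', h => by
    simp only [List.nil_append, List.cons_append, List.cons.injEq] at h
    exact absurd (h.1 ▸ List.mem_cons_self) h'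
  | a :: A, [], B, B', h', _, h => by
    simp only [List.nil_append, List.cons_append, List.cons.injEq] at h
    exact absurd (h.1 ▸ List.mem_cons_self) h'
  | a :: A, b :: A', B, B', h1, h2, h => by
    simp only [List.cons_append, List.cons.injEq] at h
    obtain ⟨h3, h4⟩ := cut (fun h => h1 (List.mem_cons_of_mem _ h))
      (fun h => h2 (List.mem_cons_of_mem _ h)) h.2
    exact ⟨by rw [h.1, h3], h4⟩

theorem two {x : ℕ} {M : List ℕ} (h : M.count x = 2) :
    ∃ a b c, M = a ++ x :: (b ++ x :: c) ∧ x ∉ a ∧ x ∉ b ∧ x ∉ c := by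
  have h1 : x ∈ M := List.count_pos_iff.1 (by omega)
  obtain ⟨a, N, rfl, ha⟩ := List.eq_append_cons_of_mem h1
  rw [List.count_append, List.count_cons_self, List.count_eq_zero.2 ha] at h
  have h2 : x ∈ N := List.count_pos_iff.1 (by omega)
  obtain ⟨b, c, rfl, hb⟩ := List.eq_append_cons_of_mem h2
  rw [List.count_append, List.count_cons_self, List.count_eq_zero.2 hb] at h
  exact ⟨a, b, c, rfl, ha, hb, List.count_eq_zero.1 (by omega)⟩

theorem zz_mod {h : List ℕ} {x : ℕ} (hx : x ∈ zz h) : x % 3 = 2 := by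
  unfold zz at hx
  obtain ⟨i, _, rfl⟩ := List.mem_map.1 hx
  omega

theorem pr_app (A B : List ℕ) : pr (A ++ B) = pr A ++ pr B := List.flatMap_append

theorem ts_app (A B : List ℕ) : ts (A ++ B) = ts A ++ ts B := List.map_append

/-- the letters before the first `t` -/
def bt (L : List ℕ) : List ℕ := L.takeWhile (fun c => decide (c % 3 ≠ 1))

theorem bt_app {A B : List ℕ} (h : ∀ c ∈ A, c % 3 ≠ 1) : bt (A ++ B) = A ++ bt B := by
  unfold bt
  exact List.takeWhile_append_of_pos (fun c hc => by simpa using h c hc)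

theorem bt_nil {C : List ℕ} (h : ∀ a l, C = a :: l → a % 3 = 1) : bt C = [] := by
  unfold bt
  cases C with
  | nil => rfl
  | cons a l =>
    rw [List.takeWhile_cons_of_neg]
    simpa using h a l rfl

theorem thr {j k : ℕ} {P Q : List ℕ} {m : ℕ} {L M Y0 : List ℕ}
    (hL : L.flatMap (pj j k) = pl P) (hM : ∀ c ∈ M, c % 3 ≠ 1)
    (hT : Thr P Q m ((L ++ (M ++ Y0)).flatMap (pj j k))) :
    ∃ h : List ℕ, h.Perm (List.range m) ∧
      M.flatMap (pj j k) ++ bt (Y0.flatMap (pj j k)) = 0 :: (zz h ++ [0]) := by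
  obtain ⟨h, C, h1, h2, h3, h4, h5⟩ := hT
  refine ⟨h, h1, ?_⟩
  rw [List.flatMap_append, List.flatMap_append, hL] at h5
  have h6 := List.append_cancel_left h5
  have h7 : bt (M.flatMap (pj j k) ++ Y0.flatMap (pj j k)) = bt (0 :: (zz h ++ 0 :: C)) := by
    rw [h6]
  rw [bt_app (fun c hc => ?_)] at h7
  · have h8 : (0 :: (zz h ++ 0 :: C) : List ℕ) = (0 :: (zz h ++ [0])) ++ C := by simp
    rw [h7, h8, bt_app (fun c hc => ?_), bt_nil h4, List.append_nil]
    rw [List.mem_cons, List.mem_append, List.mem_singleton] at hc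
    rcases hc with rfl | hc | rfl
    · omega
    · have := zz_mod hc
      omega
    · omega
  · obtain ⟨d, hd, hc'⟩ := List.mem_flatMap.1 hc
    rw [pj_mod hc']
    exact hM d hd

theorem cntz {h : List ℕ} : (0 :: (zz h ++ [0]) : List ℕ).count 0 = 2 := by
  rw [List.count_cons_self, List.count_append, List.count_eq_zero.2 (fun h => ?_)]
  · simp
  · have := zz_mod h
    omega

theorem tkw (B : List ℕ) : (B.takeWhile (fun c => !nz c)).filter nz = [] := by
  rw [List.filter_eq_nil_iff]
  intro c hc
  have := List.mem_takeWhile_imp hc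
  simpa using this

theorem drp (B : List ℕ) : (B.dropWhile (fun c => !nz c)).filter nz = B.filter nz := by
  conv_rhs => rw [← List.takeWhile_append_dropWhile (p := fun c => !nz c) (l := B)]
  rw [List.filter_append, tkw, List.nil_append]

/-- splitting at the first letter `t` of the copy `3` -/
theorem spl {Q Y0 : List ℕ} (hY : Y0.filter nz = pr (stQ Q) ++ pr (st3 Q)) :
    ∃ A B, Y0 = A ++ B ∧ A.filter nz = pr (stQ Q) ∧ B.filter nz = pr (st3 Q) ∧
      ∀ a l, B = a :: l → a % 3 = 1 := by
  obtain ⟨A, B, h1, h2, h3⟩ := List.filter_eq_append_iff.1 hY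
  refine ⟨A ++ B.takeWhile (fun c => !nz c), B.dropWhile (fun c => !nz c), ?_, ?_, ?_, ?_⟩
  · rw [List.append_assoc, List.takeWhile_append_dropWhile, h1]
  · rw [List.filter_append, h2, tkw, List.append_nil]
  · rw [drp, h3]
  · intro a l hal
    have h4 : (B.dropWhile (fun c => !nz c)).filter nz = pr (st3 Q) := by
      rw [drp, h3]
    have h5 : nz a = true := by
      have h6 := List.head_dropWhile_not (p := fun c => !nz c) (l := B) (by rw [hal]; simp)
      simp only [hal, List.head_cons, Bool.not_eq_eq_eq_not, Bool.not_false] at h6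
      exact h6
    rw [hal, List.filter_cons_of_pos h5] at h4
    cases hQ : Q with
    | nil => rw [hQ] at h4; simp [st3, pr] at h4
    | cons q Q' =>
      rw [hQ] at h4
      simp only [st3, pr, List.map_cons, List.flatMap_cons, List.cons_append] at h4
      have := (List.cons.inj h4).1
      omega

theorem fc1 (h1 : SkeStmt) (h2 : DcnStmt) (h3 : PjsStmt) (h4 : CvfStmt) (h5 : ThxStmt) :
    Fc1Stmt := by
  intro β P Q m hE s e w hS
  have hp := (h3 P Q m 0 0 (by norm_num)).2.2.2.2.1 hE.prm
  have hn := (h3 P Q m 0 0 (by norm_num)).2.2.2.2.2.1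
  obtain ⟨D', hD, hw⟩ := h1 β hE.iso (stL P) (stQ Q ++ st3 Q) (idx m) (w.filter nz) hn hp (by
    rw [pr_app]
    exact RR.symm hS.skl)
  obtain ⟨M, Y0, e1, e2, e3, e4, e5, e6⟩ := h2 β hE.iso hE.o1 hE.o2 (stL P) (stQ Q ++ st3 Q) D' w
    (hD.nodup_iff.2 hn) (hp.trans hD.symm) hS.nam hw (fun j hj => by
      rw [ts_app]
      exact hS.one j hj)
  have key : ∀ j < 3, ∀ k < 7, cv s (rl e j) k = true → ∃ h : List ℕ, h.Perm (List.range m) ∧
      M.flatMap (pj j k) ++ bt (Y0.flatMap (pj j k)) = 0 :: (zz h ++ [0]) := by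
    intro j hj k hk hc
    refine thr (L := stL P |> pl) (Q := Q) ((h3 P Q m j k hk).1) e2 ?_
    rw [← e1]
    exact (h5 β P Q m hE).2 _ ((hS.cov j hj k hk).2 hc)
  have c2 : ∀ j < 3, ∀ k < 7, cv s (rl e j) k = true →
      M.count (3 * j) = 2 ∧ (bt (Y0.flatMap (pj j k))).count 0 = 0 := by
    intro j hj k hk hc
    obtain ⟨h, _, hh⟩ := key j hj k hk hc
    have h7 := congrArg (List.count 0) hh
    rw [cntz, List.count_append, cnt0] at h7
    have := e6 j hj
    omega
  have c3 : ∀ j < 3, cv s (rl e j) 3 = true := fun j hj => (h4.1 s _ (h4.2.2.2.1 e j hj).1).1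
  rw [pr_app] at e5
  obtain ⟨A, Y, f1, f2, f3, f4⟩ := spl e5
  have hA : A = pr (stQ Q) := by
    rw [← f2, eq_comm, List.filter_eq_self]
    intro c hc
    by_contra hcn
    have hc0 : c % 3 = 0 := by simpa [nz] using hcn
    have hcw : c ∈ w := by
      rw [e1, f1]
      simp [hc]
    have hj : ∃ j < 3, c = 3 * j := by
      rcases hS.nam c hcw hc0 with h | h | h
      · exact ⟨0, by omega, by omega⟩
      · exact ⟨1, by omega, by omega⟩
      · exact ⟨2, by omega, by omega⟩
    obtain ⟨j, hj, rfl⟩ := hj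
    have h7 := (c2 j hj 3 (by omega) (c3 j hj)).2
    rw [f1, List.flatMap_append, bt_app (fun x hx => ?_), List.count_append, cnt0] at h7
    · have := List.count_pos_iff.2 hc
      omega
    · obtain ⟨d, hd, hx'⟩ := List.mem_flatMap.1 hx
      rw [pj_mod hx']
      intro hd1
      have hd2 : d ∈ pr (stQ Q) := by
        rw [← f2, List.mem_filter]
        exact ⟨hd, by simp [nz]; omega⟩
      have h8 := (h3 P Q m j 3 (by omega)).2.1
      rw [if_pos rfl, List.flatMap_eq_nil_iff] at h8
      rw [h8 d hd2] at hx'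
      simp at hx'
  refine ⟨M, Y, ?_, e2, ?_, f4, f3, ?_, ?_⟩
  · rw [e1, f1, hA]
  · rw [List.perm_iff_count]
    intro a
    by_cases ha : a % 3 = 0
    · have hz : a ∉ zz (idx m) := fun h => by
        have := zz_mod h
        omega
      by_cases ha' : a = 0 ∨ a = 3 ∨ a = 6
      · have h8 : M.count a = 2 := by
          rcases ha' with rfl | rfl | rfl
          · exact (c2 0 (by omega) 3 (by omega) (c3 0 (by omega))).1
          · exact (c2 1 (by omega) 3 (by omega) (c3 1 (by omega))).1
          · exact (c2 2 (by omega) 3 (by omega) (c3 2 (by omega))).1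
        rw [h8]
        rcases ha' with rfl | rfl | rfl <;> simp [List.count_cons, List.count_eq_zero.2 hz]
      · have h8 : M.count a = 0 := by
          rw [List.count_eq_zero]
          intro h
          exact ha' (hS.nam a (by rw [e1]; simp [h]) ha)
        rw [h8]
        simp only [not_or] at ha'
        simp [List.count_cons, List.count_eq_zero.2 hz, Ne.symm ha'.1, Ne.symm ha'.2.1,
          Ne.symm ha'.2.2]
    · have h8 : M.count a = (M.filter nz).count a := by
        rw [List.count_filter]
        simp [nz, ha]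
      have h9 : (zz D').count a = (zz (idx m)).count a := by
        have : (zz D').Perm (zz (idx m)) := hD.map _
        exact this.count_eq a
      have h10 : a ≠ 0 ∧ a ≠ 3 ∧ a ≠ 6 := ⟨by omega, by omega, by omega⟩
      rw [h8, e4, h9]
      simp [List.count_cons, Ne.symm h10.1, Ne.symm h10.2.1, Ne.symm h10.2.2]
  · intro c hc hc0
    exact hS.nam c (by rw [e1, f1]; simp [hc]) hc0
  · intro j hj k hk hc i hi
    obtain ⟨h, hh1, hh⟩ := key j hj k hk hc
    obtain ⟨hc1, hc2⟩ := c2 j hj k hk hc
    obtain ⟨a, b, c, rfl, ha, hb, hc'⟩ := two hc1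
    refine ⟨a, b, c, rfl, ?_⟩
    have n0 : ∀ L : List ℕ, 3 * j ∉ L → 0 ∉ L.flatMap (pj j k) := fun L hL => by
      rw [← List.count_eq_zero, cnt0, List.count_eq_zero]
      exact hL
    have e0 : pj j k (3 * j) = [0] := by
      unfold pj
      rw [if_pos (by omega), if_pos rfl]
    rw [List.flatMap_append, List.flatMap_cons, List.flatMap_append, List.flatMap_cons, e0] at hh
    have hh2 : a.flatMap (pj j k) ++ 0 :: (b.flatMap (pj j k) ++ 0 :: (c.flatMap (pj j k) ++
        bt (Y0.flatMap (pj j k)))) = [] ++ 0 :: (zz h ++ 0 :: []) := by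
      rw [List.nil_append, ← hh]
      simp
    obtain ⟨_, g2⟩ := cut (n0 a ha) (by simp) hh2
    obtain ⟨g3, _⟩ := cut (n0 b hb) (fun h => by
      have := zz_mod h
      omega) g2
    have g4 : 3 * i + 2 ∈ zz h := by
      unfold zz
      rw [List.mem_map]
      exact ⟨i, hh1.mem_iff.2 (List.mem_range.2 hi), rfl⟩
    rw [← g3] at g4
    obtain ⟨d, hd, hd'⟩ := List.mem_flatMap.1 g4
    have g5 : d = 3 * (7 * i + k) + 2 := by
      unfold pj at hd'
      split_ifs at hd' with i1 i2 i3
      · rw [List.mem_singleton] at hd'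
        omega
      · simp at hd'
      · rw [List.mem_singleton] at hd'
        omega
      · simp at hd'
    rw [← g5]
    exact hd

end Pool.Agent.MWI.H92
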